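import Mathlib
import Pool.Agent.W423.QC.Main

/-!
# Pointed elements in strongly positive bases of rank 2 quantum cluster algebras

Let `b, c ≥ 1`, let `F` be a division ring which contains the quantum torus
`T = ℤ[v, v⁻¹]⟨X_1 ^ {±1}, X_2 ^ {±1}⟩`, `X_2 X_1 = v ^ 2 X_1 X_2` (for instance its skew field of
fractions), and let `A_v(b, c)` be the rank 2 quantum cluster algebra. Every basis `B` of
`A_v(b, c)` over `ℤ[v, v⁻¹]` which satisfies the conditions (1), (3), (4) in the definition of a
strongly positive basis contains exactly one element pointed at `(a₁, a₂)`, for each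
`(a₁, a₂) ∈ ℤ²`.

Idea of the proof. (a) The elements of `B` have Laurent expansions with coefficients in
`ℤ_{≥0}[v, v⁻¹]`: multiply by a large monomial in the initial cluster and compare coefficients.
(b) Let `M_a` be the product of the quantum cluster monomials
`X_2 ^ {[-a₂]₊} X_3 ^ {[a₁]₊}` and `X_0 ^ {[a₂]₊} X_1 ^ {[-a₁]₊}`. It is pointed at `a`, up to a
power of `v`, and it is a combination of elements of `B` with coefficients in `ℤ_{≥0}[v, v⁻¹]`.
There are no cancellations, so that exactly one element `β a` of `B` which occurs in `M_a` has a
term in the leading exponent, and `β a` is pointed at `a`. (c) The `M_a` span `A_v(b, c)`; by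
triangularity the `β a` span `A_v(b, c)` as well. Hence `B = {β a}`.
-/

set_option autoImplicit false

namespace Pool.Agent.Results.MP_573297_al.Pointed

open Pool.Agent.W423.QC

universe u

/-- **Every strongly positive basis of a rank 2 quantum cluster algebra contains exactly one
element pointed at `(a₁, a₂)`, for each `(a₁, a₂) ∈ ℤ²`.** The division ring `F` contains the
quantum torus, `X m` are the quantum cluster variables, and `IsPositiveBasis X B` says that `B` is
a `ℤ[v, v⁻¹]`-basis of `A_v(b, c)` which consists of bar-invariant elements, contains all quantum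
cluster monomials and has structure constants in `ℤ_{≥0}[v, v⁻¹]`. -/
theorem result {F : Type u} [DivisionRing F] [Algebra Coef F] (b c : ℕ) (hb : 1 ≤ b) (hc : 1 ≤ c)
    (X : ℤ → F) (hX : IsClusterSeq b c X) (B : Set F) (hB : IsPositiveBasis X B) (a₁ a₂ : ℤ) :
    ∃! y, y ∈ B ∧ IsPointed b c X a₁ a₂ y :=
  main hX hb hc hB (a₁, a₂)

end Pool.Agent.Results.MP_573297_al.Pointed
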